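import Pool.Agent.H295R2.MK.Defs

set_option autoImplicit false

/-!
Short interval version of the moment theorem: the windows are centred at any `τ` with
`δ T ≤ τ ≤ T ^ N` and have length about `T`. (The definitions are those of `H295MK`.)
-/

namespace H295SK

open Finset Filter Topology MeasureTheory Complex
open Pool.Agent.H306R2
open H295MK (cl win winR mt CC VV EE N4 volE volN EElow N4up)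

noncomputable section

/-- R1: mean value of `ζ^j (b/a)^{it}`, error `T^{-B}` -/
def TwZ : Prop := ∀ (N j B : ℕ) (η δ : ℝ), 0 < η → η < 1 / 2 → 0 < δ → δ ≤ 1 →
  ∀ᶠ T : ℝ in atTop, ∀ τ : ℝ, δ * T ≤ τ → τ ≤ T ^ N → ∀ a b : ℕ, 1 ≤ a → (a : ℝ) ≤ T → 1 ≤ b →
    (b : ℝ) ≤ Yt η T →
    ‖win η δ T τ (fun t => riemannZeta (cl t) ^ j * H295MK.fr a b t) - (mt j a b : ℂ)‖ ≤ 1 / T ^ B

/-- R2: the same with `j = 0` -/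
def TwO : Prop := ∀ (N B : ℕ) (η δ : ℝ), 0 < η → η < 1 / 2 → 0 < δ → δ ≤ 1 →
  ∀ᶠ T : ℝ in atTop, ∀ τ : ℝ, δ * T ≤ τ → τ ≤ T ^ N → ∀ a b : ℕ, 1 ≤ a → (a : ℝ) ≤ T → 1 ≤ b →
    (b : ℝ) ≤ Yt η T →
    ‖win η δ T τ (fun t => H295MK.fr a b t) - (if a = b then 1 else 0 : ℂ)‖ ≤ 1 / T ^ B

/-- R3: the correlation -/
def WinN : Prop := ∀ (N j : ℕ) (η δ : ℝ), 1 ≤ j → 0 < η → η < 1 / 2 → 0 < δ → δ ≤ 1 →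
  ∀ᶠ T : ℝ in atTop, ∀ τ : ℝ, δ * T ≤ τ → τ ≤ T ^ N →
    EE j (Yt η T ^ (1 / 2 : ℝ)) - 1 ≤
      ‖∫ t in (τ - δ / 2 * T)..(τ + δ / 2 * T), (riemannZeta (cl t) ^ j *
        VV j (Yt η T ^ (1 / 2 : ℝ)) t) * (starRingEnd ℂ) (CC j (Yt η T ^ (1 / 2 : ℝ)) t) *
          (gw τ (Ht η T) t : ℂ)‖

/-- R4: the mean square of `C` -/
def WinC : Prop := ∀ (N j : ℕ) (η δ : ℝ), 1 ≤ j → 0 < η → η < 1 / 2 → 0 < δ → δ ≤ 1 →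
  ∀ᶠ T : ℝ in atTop, ∀ τ : ℝ, δ * T ≤ τ → τ ≤ T ^ N →
    winR η δ T τ (fun t => ‖CC j (Yt η T ^ (1 / 2 : ℝ)) t‖ ^ 2) ≤ EE j (Yt η T ^ (1 / 2 : ℝ)) + 1

/-- R5: the fourth moment of `V` -/
def WinV : Prop := ∀ (N j : ℕ) (η δ : ℝ), 1 ≤ j → 0 < η → η < 1 / 2 → 0 < δ → δ ≤ 1 →
  ∀ᶠ T : ℝ in atTop, ∀ τ : ℝ, δ * T ≤ τ → τ ≤ T ^ N →
    winR η δ T τ (fun t => ‖VV j (Yt η T ^ (1 / 2 : ℝ)) t‖ ^ (2 * 2)) ≤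
      N4 j (Yt η T ^ (1 / 2 : ℝ)) + 1

/-- F1: lower bound with fixed parameters in the interval `[T, T + U]`, `U ≤ T ≤ U ^ N` -/
def Fixed : Prop := ∀ (N j : ℕ) (A K x : ℝ), 1 ≤ j → 0 < A →
  A < aF (2 * j) * ((1 / 2) ^ (4 * j ^ 2) * volE (j ^ 2)) →
  aF (2 * j) * ((1 / 2) ^ (4 * j ^ 2) * volN (j ^ 2)) < K → 0 < x → x < 1 / 4 →
  ∀ᶠ U : ℝ in atTop, ∀ T : ℝ, 0 ≤ T → T ≤ U ^ N →
    (A ^ 2 / K) * ((1 - x) ^ 4 * (1 - 2 * x) * (1 - 2 * x) ^ (4 * j ^ 2)) *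
        (U * Real.log U ^ (4 * j ^ 2)) ≤
      ∫ t in T..(T + U), ‖riemannZeta (1 / 2 + t * Complex.I)‖ ^ (4 * j)

/-- F3: the theorem, `k = 2j` -/
def MainK : Prop := ∀ (j : ℕ) (c θ : ℝ), 1 ≤ j → 0 < θ →
  c < aF (2 * j) / ((4 * j ^ 2).factorial : ℝ) *
    ((1 / 2) ^ (4 * j ^ 2) * ((4 * j ^ 2).choose (j ^ 2) : ℝ) ^ 2) →
  ∀ᶠ T : ℝ in atTop, ∀ U : ℝ, T ^ θ ≤ U → c * (U * Real.log U ^ (4 * j ^ 2)) ≤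
    ∫ t in T..(T + U), ‖riemannZeta (1 / 2 + t * Complex.I)‖ ^ (4 * j)

end

end H295SK
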