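import Pool.Agent.H295R2.SK.Defs
import Pool.Agent.H400R2.MK_F1

set_option autoImplicit false

namespace H295SK

open Finset Filter Topology MeasureTheory Complex
open Pool.Agent.H306R2
open H400MK hiding fixed
open H295MK (cl win winR mt CC VV EE N4 volE volN EElow N4up)

/-- F1 (adapted from the file of helper400) -/
theorem fixed (h1 : WinN) (h2 : WinC) (h3 : WinV) (h4 : EElow) (h5 : N4up) : Fixed := by
  intro N j A K x hj hA hAV hKV hx hx2
  set m : ℕ := 4 * j ^ 2 with hm
  have hj0 : (0:ℝ) < j := by exact_mod_cast hj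
  obtain ⟨K', hK'1, hK'2⟩ := exists_between hKV
  have hvol : 0 < volN (j ^ 2) := by unfold volN; positivity
  have haF : 0 < aF (2 * (j:ℝ)) := aF_pos (by positivity)
  have hK'0 : 0 < K' := lt_trans (by positivity) hK'1
  have hK0 : 0 < K := lt_trans hK'0 hK'2
  have hYt : Tendsto (fun T : ℝ => Real.log (Yt x T)) atTop atTop :=
    Yt_tendsto (η := x) (by linarith)
  have hE := hYt.eventually (h4 j A hj hAV)
  have hN := hYt.eventually (h5 j K' hj hK'1)
  have hL1 : ∀ᶠ T : ℝ in atTop, 3 / (x * A) ≤ Real.log (Yt x T) ^ m :=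
    ((tendsto_pow_atTop (by positivity)).comp hYt).eventually_ge_atTop _
  have hL2 : ∀ᶠ T : ℝ in atTop, 1 / (K - K') ≤ Real.log (Yt x T) ^ m :=
    ((tendsto_pow_atTop (by positivity)).comp hYt).eventually_ge_atTop _
  filter_upwards [h1 (N + 2) j x x hj hx (by linarith) hx (by linarith),
    h2 (N + 2) j x x hj hx (by linarith) hx (by linarith),
    h3 (N + 2) j x x hj hx (by linarith) hx (by linarith), hE, hN, hL1, hL2, eventually_gt_atTop 1,
    hYt.eventually_gt_atTop 0, eventually_ge_atTop 2]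
    with T hT1 hT2 hT3 hT4 hT5 hT6 hT7 hT8 hT9 hT10 T0 hT00 hT0N
  have hT0 : 0 < T := by linarith
  have hH0 : 0 < Ht x T := Real.rpow_pos_of_pos hT0 _
  have hY0 : 0 < Yt x T := Real.rpow_pos_of_pos hT0 _
  have hX : Real.exp (1 / 2 * Real.log (Yt x T)) = Yt x T ^ (1 / 2 : ℝ) := by
    rw [Real.rpow_def_of_pos hY0, mul_comm]
  rw [hX] at hT4 hT5
  set L := Real.log (Yt x T) with hL
  set X := Yt x T ^ (1 / 2 : ℝ) with hXd
  set E := EE j X with hEd
  set Q := N4 j X with hQd
  have hxA : 3 ≤ x * (A * L ^ m) := by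
    rw [div_le_iff₀ (by positivity)] at hT6
    linarith
  have hKK : 1 ≤ (K - K') * L ^ m := by
    rw [div_le_iff₀ (by linarith)] at hT7
    linarith
  have hAL : 0 ≤ A * L ^ m := by positivity
  have hAL3 : 3 ≤ A * L ^ m := by nlinarith
  have hE3 : 3 ≤ E := le_trans hAL3 hT4
  have hQ0 : 0 ≤ Q := by
    rw [hQd]; unfold N4
    refine sum_nonneg fun a _ => sum_nonneg fun b _ => sum_nonneg fun c _ => sum_nonneg fun d _ => ?_
    split_ifs
    · have h1 := dv_nonneg hj0.le a
      have h2 := dv_nonneg hj0.le b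
      have h3 := dv_nonneg hj0.le c
      have h4 := dv_nonneg hj0.le d
      positivity
    · exact le_rfl
  have hQ1 : Q + 1 ≤ K * L ^ m := by linarith
  set J := (A * ((1 - x) * L ^ m)) ^ 2 / (K * L ^ m) with hJ
  have hwin0 : ∀ τ ∈ Set.Icc (x * T) ((1 - x) * T), J ≤
      ∫ t in ((T0 + τ) - x / 2 * T)..((T0 + τ) + x / 2 * T),
        ‖riemannZeta (1 / 2 + t * Complex.I)‖ ^ (4 * (j:ℝ)) * gw (T0 + τ) (Ht x T) t := by
    intro τ hτ
    have hτ1 : x * T ≤ T0 + τ := by linarith [hτ.1]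
    have hτ2 : T0 + τ ≤ T ^ (N + 2) := by
      have e1 := hτ.2
      have e2 : (1 - x) * T ≤ T := by nlinarith
      have e3 : 1 ≤ T ^ N := one_le_pow₀ (by linarith)
      have e4 : T ^ (N + 2) = T ^ N * (T * T) := by ring
      rw [e4]
      have e5 : 0 ≤ (T ^ N - 1) * (T * T - 1) := mul_nonneg (by linarith) (by nlinarith)
      nlinarith
    have h := window_holder_real 1 (fun _ => 2) (fun i => by norm_num) j (4 * (j:ℝ)) hj (by positivity)
      (by simp; field_simp; norm_num)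
      (fun t => riemannZeta (cl t)) (CC j X) (fun _ => VV j X)
      (by unfold cl; exact zeta_line_continuous) (CC_continuous _ _) (fun i => VV_continuous _ _)
      (gw (T0 + τ) (Ht x T)) (gw_continuous _ _) (fun t => gw_nonneg _ _ _ hH0)
      ((T0 + τ) - x / 2 * T) ((T0 + τ) + x / 2 * T) (by nlinarith) (E - 1) (E + 1) (fun _ => Q + 1)
      (by linarith) (by linarith) (fun _ => by linarith)
      (by simpa using hT1 (T0 + τ) hτ1 hτ2)
      (hT2 (T0 + τ) hτ1 hτ2)
      (fun i => hT3 (T0 + τ) hτ1 hτ2)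
    refine le_trans ?_ h
    have e1 : 4 * (j:ℝ) / j = 4 := by field_simp
    rw [e1]
    simp only [Finset.univ_unique, Finset.prod_singleton, Nat.cast_ofNat]
    have e2 : (1:ℝ) / (2 * 2) = 1 / 4 := by norm_num
    rw [e2]
    have := alg_low (E := E) (K0 := Q + 1) (A' := A * ((1 - x) * L ^ m)) (B := K * L ^ m) hE3
      (by have : 0 ≤ 1 - x := by linarith
          positivity) (by nlinarith) (by linarith) hQ1
    exact this
  have hwin : ∀ τ ∈ Set.Icc (x * T) ((1 - x) * T), J ≤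
      ∫ t in (τ - x / 2 * T)..(τ + x / 2 * T),
        ‖riemannZeta (1 / 2 + ((T0 + t : ℝ) : ℂ) * Complex.I)‖ ^ (4 * (j:ℝ)) * gw τ (Ht x T) t := by
    intro τ hτ
    refine (hwin0 τ hτ).trans (le_of_eq ?_)
    have e1 := intervalIntegral.integral_comp_add_left (a := τ - x / 2 * T) (b := τ + x / 2 * T)
      (fun s : ℝ => ‖riemannZeta (1 / 2 + s * Complex.I)‖ ^ (4 * (j:ℝ)) * gw (T0 + τ) (Ht x T) s) T0
    rw [show T0 + (τ - x / 2 * T) = (T0 + τ) - x / 2 * T by ring,
      show T0 + (τ + x / 2 * T) = (T0 + τ) + x / 2 * T by ring] at e1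
    rw [← e1]
    refine intervalIntegral.integral_congr fun t _ => ?_
    show _ * gw (T0 + τ) (Ht x T) (T0 + t) = _
    have e2 : gw (T0 + τ) (Ht x T) (T0 + t) = gw τ (Ht x T) t := by
      unfold gw
      rw [show T0 + t - (T0 + τ) = t - τ by ring]
    rw [e2]
  have hfin := window_sum
    (fun t => ‖riemannZeta (1 / 2 + ((T0 + t : ℝ) : ℂ) * Complex.I)‖ ^ (4 * (j:ℝ)))
    ((zeta_line_continuous.comp (continuous_const.add continuous_id)).norm.rpow_const
      fun _ => Or.inr (by positivity)) (fun t => by positivity)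
    (fun τ t => gw τ (Ht x T) t) (by unfold gw; fun_prop) (fun τ t => gw_nonneg _ _ _ hH0)
    (by
      intro t
      have h1 : ∀ τ, gw τ (Ht x T) t = gw t (Ht x T) τ := fun τ => gw_symm _ _ _
      simp only [h1]
      rw [← ofReal_integral_eq_lintegral_ofReal (gw_integrable _ _ hH0)
        (Eventually.of_forall fun τ => gw_nonneg _ _ _ hH0), gw_integral _ _ hH0]
      simp)
    T (x * T) ((1 - x) * T) (x / 2 * T) J (by nlinarith) (by positivity) (by nlinarith)
    (by nlinarith) (by positivity) hwin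
  have hconv : (∫ t in (0:ℝ)..T,
        ‖riemannZeta (1 / 2 + ((T0 + t : ℝ) : ℂ) * Complex.I)‖ ^ (4 * (j:ℝ)))
      = ∫ t in T0..(T0 + T), ‖riemannZeta (1 / 2 + t * Complex.I)‖ ^ (4 * j) := by
    have e1 := intervalIntegral.integral_comp_add_left (a := 0) (b := T)
      (fun s : ℝ => ‖riemannZeta (1 / 2 + s * Complex.I)‖ ^ (4 * j)) T0
    rw [add_zero] at e1
    rw [← e1]
    refine intervalIntegral.integral_congr fun t _ => ?_
    show ‖riemannZeta (1 / 2 + ((T0 + t : ℝ) : ℂ) * Complex.I)‖ ^ (4 * (j:ℝ)) = _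
    rw [show (4 * (j:ℝ)) = ((4 * j : ℕ) : ℝ) by push_cast; ring, Real.rpow_natCast]
  rw [hconv] at hfin
  refine le_trans ?_ hfin
  have hlog : L = (1 - 2 * x) * Real.log T := by
    rw [hL]
    unfold Yt
    rw [Real.log_rpow hT0]
  have hLm : 0 < L ^ m := by positivity
  have eJ : J = A ^ 2 / K * ((1 - x) ^ 2 * L ^ m) := by
    rw [hJ]
    field_simp
  rw [eJ]
  have e3 : A ^ 2 / K * ((1 - x) ^ 4 * (1 - 2 * x) * (1 - 2 * x) ^ m) * (T * Real.log T ^ m)
      = (1 - 2 * x) * T * (A ^ 2 / K * ((1 - x) ^ 4 * L ^ m)) := by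
    rw [hlog, mul_pow]
    ring
  rw [e3]
  have e4 : (1 - x) * T - x * T = (1 - 2 * x) * T := by ring
  rw [e4]
  have h12 : 0 ≤ (1 - 2 * x) * T := by
    have : 0 ≤ 1 - 2 * x := by linarith
    positivity
  refine mul_le_mul_of_nonneg_left ?_ h12
  refine mul_le_mul_of_nonneg_left ?_ (by positivity)
  refine mul_le_mul_of_nonneg_right ?_ hLm.le
  exact pow_le_pow_of_le_one (by linarith) (by linarith) (by norm_num)


end H295SK
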