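import Pool.Agent.H295R2.SK.Defs
import Pool.Agent.H578R2.MK_R4

set_option autoImplicit false

namespace H295SK

open Finset Filter Topology MeasureTheory Complex
open Pool.Agent.H306R2 hiding fr
open H295MK (cl win winR mt CC VV EE N4 volE volN EElow N4up cc SP fr)
open Pool.Agent.H578R2.MKR4 hiding winC

noncomputable section

/-- R4 (adapted from the file of helper578) -/
theorem winC (h : TwO) : WinC := by
  intro N j η δ _ hη hη2 hδ hδ1
  filter_upwards [h N (4 * j + 4) η δ hη hη2 hδ hδ1, eventually_ge_atTop 1] with T hT hT1 τ hτ1 hτ2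
  have hT0 : 0 < T := by linarith
  have hY1 : 1 ≤ Yt η T := one_le_Yt hη2 hT1
  have hYT : Yt η T ≤ T := Yt_le hη hT1
  set X : ℝ := Yt η T ^ (1 / 2 : ℝ) with hX
  have hX2 : X ^ 2 = Yt η T := by
    rw [hX, ← Real.rpow_natCast, ← Real.rpow_mul (by linarith)]
    norm_num
  have hX1 : 1 ≤ X := Real.one_le_rpow hY1 (by norm_num)
  have hXT : X ^ 2 ≤ T := by rw [hX2]; exact hYT
  have hcast : ((winR η δ T τ (fun t => ‖CC j X t‖ ^ 2) : ℝ) : ℂ) =
      ∑ b ∈ SP X, ∑ b' ∈ SP X, ((cc j X b * cc j X b' : ℝ) : ℂ) *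
        win η δ T τ (fun t => fr (b.1 * b'.2) (b.2 * b'.1) t) := by
    rw [← win_sum η δ T τ (SP X) (fun b b' => ((cc j X b * cc j X b' : ℝ) : ℂ))
      (fun b b' => fr (b.1 * b'.2) (b.2 * b'.1)) (fun b b' => fr_cont _ _)]
    unfold winR win
    rw [← intervalIntegral.integral_ofReal]
    apply intervalIntegral.integral_congr
    intro t _
    simp only
    rw [Complex.ofReal_mul, normsq j X (by linarith)]
  have hEE : ((EE j X : ℝ) : ℂ) = ∑ b ∈ SP X, ∑ b' ∈ SP X, ((cc j X b * cc j X b' : ℝ) : ℂ) *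
      (if b.1 * b'.2 = b.2 * b'.1 then 1 else 0 : ℂ) := by
    unfold EE
    rw [Complex.ofReal_sum]
    refine sum_congr rfl fun b hb => ?_
    obtain ⟨p1, p2, _, _, p5⟩ := sp_mem hb (by linarith)
    rw [sum_eq_single b]
    · rw [if_pos (mul_comm _ _)]
      push_cast
      ring
    · intro b' hb' hne
      obtain ⟨q1, q2, _, _, q5⟩ := sp_mem hb' (by linarith)
      rw [if_neg, mul_zero]
      intro heq
      exact hne (cop p1 p5 q5 heq).symm
    · intro hb'; exact absurd hb hb'
  have hdiff : ‖((winR η δ T τ (fun t => ‖CC j X t‖ ^ 2) - EE j X : ℝ) : ℂ)‖ ≤ 1 := by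
    rw [Complex.ofReal_sub, hcast, hEE, ← sum_sub_distrib]
    refine (norm_sum_le _ _).trans ?_
    have hb : ∀ b ∈ SP X, ‖∑ b' ∈ SP X, ((cc j X b * cc j X b' : ℝ) : ℂ) *
        win η δ T τ (fun t => fr (b.1 * b'.2) (b.2 * b'.1) t) -
        ∑ b' ∈ SP X, ((cc j X b * cc j X b' : ℝ) : ℂ) *
        (if b.1 * b'.2 = b.2 * b'.1 then 1 else 0 : ℂ)‖ ≤ T * (T ^ (4 * j + 2) / T ^ (4 * j + 4)) := by
      intro b hb
      rw [← sum_sub_distrib]
      refine (norm_sum_le _ _).trans ?_
      calc _ ≤ ∑ b' ∈ SP X, T ^ (4 * j + 2) / T ^ (4 * j + 4) := by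
            refine sum_le_sum fun b' hb' => ?_
            rw [← mul_sub, norm_mul, Complex.norm_real, Real.norm_eq_abs]
            obtain ⟨p1, p2, p3, p4, _⟩ := sp_mem hb (by linarith)
            obtain ⟨q1, q2, q3, q4, _⟩ := sp_mem hb' (by linarith)
            obtain ⟨c1, c2⟩ := cc_le j X T hX1 hXT b hb
            obtain ⟨d1, d2⟩ := cc_le j X T hX1 hXT b' hb'
            have hab : ((b.1 * b'.2 : ℕ) : ℝ) ≤ X ^ 2 := by
              push_cast
              rw [sq]
              exact mul_le_mul p3 q4 (Nat.cast_nonneg _) (by linarith)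
            have hba : ((b.2 * b'.1 : ℕ) : ℝ) ≤ X ^ 2 := by
              push_cast
              rw [sq]
              exact mul_le_mul p4 q3 (Nat.cast_nonneg _) (by linarith)
            have hw := hT τ hτ1 hτ2 (b.1 * b'.2) (b.2 * b'.1) (Nat.mul_pos p1 q2)
              (hab.trans hXT) (Nat.mul_pos p2 q1) (by rw [← hX2]; exact hba)
            rw [abs_of_nonneg (mul_nonneg c1 d1), div_eq_mul_one_div]
            apply mul_le_mul _ hw (norm_nonneg _) (by positivity)
            calc cc j X b * cc j X b' ≤ T ^ (2 * j + 1) * T ^ (2 * j + 1) :=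
                  mul_le_mul c2 d2 d1 (by positivity)
              _ = T ^ (4 * j + 2) := by rw [← pow_add]; congr 1; ring
        _ = (SP X).card * (T ^ (4 * j + 2) / T ^ (4 * j + 4)) := by rw [sum_const, nsmul_eq_mul]
        _ ≤ _ := mul_le_mul_of_nonneg_right (sp_card X T hX1 hXT) (by positivity)
    calc _ ≤ ∑ b ∈ SP X, T * (T ^ (4 * j + 2) / T ^ (4 * j + 4)) := sum_le_sum hb
      _ = (SP X).card * (T * (T ^ (4 * j + 2) / T ^ (4 * j + 4))) := by
          rw [sum_const, nsmul_eq_mul]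
      _ ≤ T * (T * (T ^ (4 * j + 2) / T ^ (4 * j + 4))) :=
          mul_le_mul_of_nonneg_right (sp_card X T hX1 hXT) (by positivity)
      _ = 1 := by
          have : T ^ (4 * j + 4) = T ^ (4 * j + 2) * T * T := by ring
          rw [this]
          have hp : T ^ (4 * j + 2) ≠ 0 := by positivity
          field_simp
  rw [Complex.norm_real, Real.norm_eq_abs] at hdiff
  have := (abs_le.1 hdiff).2
  linarith

end

end H295SK
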