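import Pool.Agent.H295R2.SK.Defs
import Pool.Agent.H384R2.MK_R5

set_option autoImplicit false

namespace H295SK

open Finset Filter Topology MeasureTheory Complex
open Pool.Agent.H306R2
open H384MK hiding T_WinV

noncomputable section

/-- R5 (adapted from the file of helper384) -/
theorem winV (h : TwO) : WinV := by
  intro N j η δ hj hη hη2 hδ hδ1
  filter_upwards [h N (2 * j + 2) η δ hη hη2 hδ hδ1, eventually_ge_atTop 1] with T hT hT1
  intro τ hτ1 hτ2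
  have hT0 : 0 < T := by linarith
  have hY0 : 0 < Yt η T := Yt_pos hT0
  have hYT : Yt η T ≤ T := Yt_le hη hT1
  set X : ℝ := Yt η T ^ (1 / 2 : ℝ) with hX
  have hX0 : 0 ≤ X := Real.rpow_nonneg hY0.le _
  have hX2 : X * X = Yt η T := by
    rw [hX, ← Real.rpow_add hY0]
    norm_num
  have hN : (⌊X⌋₊ : ℝ) ≤ X := Nat.floor_le hX0
  have hmem : ∀ n ∈ Icc 1 ⌊X⌋₊, (1 : ℕ) ≤ n ∧ (n : ℝ) ≤ X := by
    intro n hn
    rw [mem_Icc] at hn
    exact ⟨hn.1, (by exact_mod_cast hn.2 : (n : ℝ) ≤ ⌊X⌋₊).trans hN⟩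
  have hab : ∀ a ∈ Icc 1 ⌊X⌋₊, ∀ b ∈ Icc 1 ⌊X⌋₊, (1 : ℕ) ≤ a * b ∧ ((a * b : ℕ) : ℝ) ≤ Yt η T := by
    intro a ha b hb
    obtain ⟨ha1, ha2⟩ := hmem a ha
    obtain ⟨hb1, hb2⟩ := hmem b hb
    refine ⟨Nat.mul_pos ha1 hb1, ?_⟩
    push_cast
    rw [← hX2]
    exact mul_le_mul ha2 hb2 (Nat.cast_nonneg b) hX0
  have key : ‖((H295MK.winR η δ T τ (fun t => ‖H295MK.VV j X t‖ ^ (2 * 2)) -
      H295MK.N4 j X : ℝ) : ℂ)‖ ≤ 1 := by
    rw [Complex.ofReal_sub, win_expand, N4_eq]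
    have e1 : ((∑ a ∈ Icc 1 ⌊X⌋₊, ∑ b ∈ Icc 1 ⌊X⌋₊, ∑ c ∈ Icc 1 ⌊X⌋₊, ∑ d ∈ Icc 1 ⌊X⌋₊,
        vc j a * vc j b * (vc j c * vc j d) * (if c * d = a * b then 1 else 0) : ℝ) : ℂ) =
        ∑ a ∈ Icc 1 ⌊X⌋₊, ∑ b ∈ Icc 1 ⌊X⌋₊, ∑ c ∈ Icc 1 ⌊X⌋₊, ∑ d ∈ Icc 1 ⌊X⌋₊,
        ((vc j a * vc j b * (vc j c * vc j d) : ℝ) : ℂ) * (if c * d = a * b then 1 else 0) := by
      rw [Complex.ofReal_sum]
      refine sum_congr rfl fun a _ => ?_
      rw [Complex.ofReal_sum]
      refine sum_congr rfl fun b _ => ?_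
      rw [Complex.ofReal_sum]
      refine sum_congr rfl fun c _ => ?_
      rw [Complex.ofReal_sum]
      refine sum_congr rfl fun d _ => ?_
      rw [Complex.ofReal_mul]
      congr 1
      split_ifs <;> simp
    rw [e1, ← Finset.sum_sub_distrib]
    have hbd : ∀ a ∈ Icc 1 ⌊X⌋₊, ∀ b ∈ Icc 1 ⌊X⌋₊, ∀ c ∈ Icc 1 ⌊X⌋₊, ∀ d ∈ Icc 1 ⌊X⌋₊,
        ‖((vc j a * vc j b * (vc j c * vc j d) : ℝ) : ℂ) *
          H295MK.win η δ T τ (fun t => H295MK.fr (c * d) (a * b) t) -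
          ((vc j a * vc j b * (vc j c * vc j d) : ℝ) : ℂ) * (if c * d = a * b then 1 else 0)‖ ≤
        1 / T ^ 2 := by
      intro a ha b hb c hc d hd
      have h1 := hT τ hτ1 hτ2 (c * d) (a * b) (hab c hc d hd).1
        ((hab c hc d hd).2.trans hYT) (hab a ha b hb).1 (hab a ha b hb).2
      rw [← mul_sub, norm_mul]
      have h2 : ‖((vc j a * vc j b * (vc j c * vc j d) : ℝ) : ℂ)‖ ≤ T ^ (2 * j) := by
        rw [Complex.norm_real, Real.norm_of_nonneg (by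
          have := vc_nonneg j
          have h1 := this a
          have h2 := this b
          have h3 := this c
          have h4 := this d
          positivity)]
        have hab' : vc j a * vc j b ≤ T ^ j := by
          calc vc j a * vc j b ≤ (a : ℝ) ^ j * (b : ℝ) ^ j :=
                mul_le_mul (vc_le j a (hmem a ha).1) (vc_le j b (hmem b hb).1) (vc_nonneg j b)
                  (by positivity)
            _ = ((a * b : ℕ) : ℝ) ^ j := by push_cast; rw [mul_pow]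
            _ ≤ T ^ j := pow_le_pow_left₀ (Nat.cast_nonneg _) ((hab a ha b hb).2.trans hYT) j
        have hcd' : vc j c * vc j d ≤ T ^ j := by
          calc vc j c * vc j d ≤ (c : ℝ) ^ j * (d : ℝ) ^ j :=
                mul_le_mul (vc_le j c (hmem c hc).1) (vc_le j d (hmem d hd).1) (vc_nonneg j d)
                  (by positivity)
            _ = ((c * d : ℕ) : ℝ) ^ j := by push_cast; rw [mul_pow]
            _ ≤ T ^ j := pow_le_pow_left₀ (Nat.cast_nonneg _) ((hab c hc d hd).2.trans hYT) j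
        calc vc j a * vc j b * (vc j c * vc j d) ≤ T ^ j * T ^ j :=
              mul_le_mul hab' hcd' (mul_nonneg (vc_nonneg j c) (vc_nonneg j d)) (by positivity)
          _ = T ^ (2 * j) := by ring
      calc _ ≤ T ^ (2 * j) * (1 / T ^ (2 * j + 2)) :=
            mul_le_mul h2 h1 (norm_nonneg _) (by positivity)
        _ = 1 / T ^ 2 := by
            rw [pow_add]
            field_simp
    have hcard : ((Icc 1 ⌊X⌋₊).card : ℝ) ≤ X := by
      rw [Nat.card_Icc, Nat.add_sub_cancel]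
      exact hN
    have hstep : ∀ (F : ℕ → ℂ) (M : ℝ), 0 ≤ M → (∀ a ∈ Icc 1 ⌊X⌋₊, ‖F a‖ ≤ M) →
        ‖∑ a ∈ Icc 1 ⌊X⌋₊, F a‖ ≤ X * M := by
      intro F M hM hF
      calc ‖∑ a ∈ Icc 1 ⌊X⌋₊, F a‖ ≤ ∑ a ∈ Icc 1 ⌊X⌋₊, M := norm_sum_le_of_le _ hF
        _ = (Icc 1 ⌊X⌋₊).card * M := by rw [sum_const, nsmul_eq_mul]
        _ ≤ X * M := mul_le_mul_of_nonneg_right hcard hM
    have hfin : X * (X * (X * (X * (1 / T ^ 2)))) ≤ 1 := by
      have h1 : X * (X * (X * (X * (1 / T ^ 2)))) = (X * X) ^ 2 / T ^ 2 := by ring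
      rw [h1, hX2, div_le_one (by positivity)]
      exact pow_le_pow_left₀ hY0.le hYT 2
    refine le_trans ?_ hfin
    apply hstep _ _ (by positivity)
    intro a ha
    rw [← Finset.sum_sub_distrib]
    apply hstep _ _ (by positivity)
    intro b hb
    rw [← Finset.sum_sub_distrib]
    apply hstep _ _ (by positivity)
    intro c hc
    rw [← Finset.sum_sub_distrib]
    apply hstep _ _ (by positivity)
    intro d hd
    exact hbd a ha b hb c hc d hd
  rw [Complex.norm_real, Real.norm_eq_abs] at key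
  have := (abs_le.1 key).2
  linarith

end

end H295SK
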