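import Pool.Agent.H295R2.MK.Final
import Pool.Agent.H295R2.SK.R1
import Pool.Agent.H295R2.SK.R2
import Pool.Agent.H295R2.SK.R3
import Pool.Agent.H295R2.SK.R4
import Pool.Agent.H295R2.SK.R5
import Pool.Agent.H295R2.SK.F1

set_option autoImplicit false

/-! The moment theorem in all short intervals. -/

namespace H295SK

open Finset Filter Topology MeasureTheory Complex
open Pool.Agent.H306R2
open H295MK (cl win winR mt CC VV EE N4 volE volN EElow N4up)

lemma volE_pos (q : ℕ) : 0 < volE q := by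
  unfold volE
  positivity

lemma volN_pos (q : ℕ) : 0 < volN q := by
  unfold volN
  positivity

theorem mainK_of (h1 : Fixed) (h2 : H295MK.Const) : MainK := by
  intro j c θ hj hθ hc
  have hj0 : (0:ℝ) < j := by exact_mod_cast hj
  have haF : 0 < aF (2 * (j : ℝ)) := aF_pos (by positivity)
  rw [← h2 j hj] at hc
  set E0 := aF (2 * (j : ℝ)) * ((1 / 2) ^ (4 * j ^ 2) * volE (j ^ 2)) with hE
  set N0 := aF (2 * (j : ℝ)) * ((1 / 2) ^ (4 * j ^ 2) * volN (j ^ 2)) with hN
  have hE0 : 0 < E0 := by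
    have := volE_pos (j ^ 2)
    positivity
  have hN0 : 0 < N0 := by
    have := volN_pos (j ^ 2)
    positivity
  set f : ℝ → ℝ := fun x => (((1 - x) * E0) ^ 2 / ((1 + x) * N0)) *
    ((1 - x) ^ 4 * (1 - 2 * x) * (1 - 2 * x) ^ (4 * j ^ 2)) with hf
  have hf0 : f 0 = E0 ^ 2 / N0 := by
    rw [hf]
    simp
  have hlim : Tendsto f (𝓝[>] 0) (𝓝 (f 0)) := by
    have h3 : ContinuousAt f 0 := by
      rw [hf]
      refine ContinuousAt.mul (ContinuousAt.div (by fun_prop) (by fun_prop) ?_) (by fun_prop)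
      simp only [add_zero, one_mul]
      exact hN0.ne'
    exact h3.tendsto.mono_left nhdsWithin_le_nhds
  rw [hf0] at hlim
  obtain ⟨x, hxc, hx0, hx4⟩ := ((hlim.eventually_const_lt hc).and
    (Ioo_mem_nhdsGT (by norm_num : (0:ℝ) < 1 / 4))).exists
  set N : ℕ := ⌈1 / θ⌉₊ with hN1
  have hmain := h1 N j ((1 - x) * E0) ((1 + x) * N0) x hj (mul_pos (by linarith) hE0)
    (by
      rw [← hE]
      nlinarith)
    (by
      rw [← hN]
      nlinarith) hx0 hx4
  obtain ⟨U0, hU0⟩ := eventually_atTop.1 hmain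
  have htend : Tendsto (fun T : ℝ => T ^ θ) atTop atTop := tendsto_rpow_atTop hθ
  filter_upwards [htend.eventually_ge_atTop U0, htend.eventually_ge_atTop 1,
    eventually_gt_atTop 1] with T hT1 hT2 hT3 U hU
  have hU1 : 1 ≤ U := hT2.trans hU
  have hT0 : 0 ≤ T := by linarith
  have hTU : T ≤ U ^ N := by
    have e1 : T = (T ^ θ) ^ (1 / θ) := by
      rw [← Real.rpow_mul hT0, mul_one_div_cancel hθ.ne', Real.rpow_one]
    calc T = (T ^ θ) ^ (1 / θ) := e1
      _ ≤ U ^ (1 / θ) := Real.rpow_le_rpow (by linarith) hU (by positivity)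
      _ ≤ U ^ (N : ℝ) := Real.rpow_le_rpow_of_exponent_le hU1 (Nat.le_ceil _)
      _ = U ^ N := Real.rpow_natCast _ _
  have hT := hU0 U (hT1.trans hU) T hT0 hTU
  refine le_trans ?_ hT
  have hlog : 0 ≤ Real.log U := Real.log_nonneg hU1
  have : 0 ≤ U * Real.log U ^ (4 * j ^ 2) := by positivity
  exact mul_le_mul_of_nonneg_right hxc.le this

theorem mainK : MainK := by
  have hR1 : TwZ := twZ
  have hR2 : TwO := twO hR1
  have hA4 : H295MK.Kar4 := H55MK.kar4 Pool.Agent.H835R2.MK_A1.main Pool.Agent.H143R2.MK_A2.lw4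
    Pool.Agent.H757R2.MKA3.loc4
  have hS1 : EElow := H388MK.ee_low hA4 H408MKA5.eEsum_done H408MKV1.volE_done
  have hS2 : N4up := H399R2.MKS2.N4up_proof hA4 Pool.Agent.H885R2.MKA6.A6
    Pool.Agent.H950R2.MK_V2.VolN_ok
  exact mainK_of (fixed (winN hR1) (winC hR2) (winV hR2) hS1 hS2) Pool.Agent.H640R2.MK.const_holds

end H295SK
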